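import Mathlib
import Pool.Agent.KS6_16.VJ.Defs

/-!
# MP_e44225_nt, module M4: points of a finite cover near a given complex point
-/

open Polynomial
open scoped LaurentPolynomial

namespace Pool.Agent.KS6_58.VJ

/-- A homomorphism into `ℂ` extends along an integral ring extension. -/
theorem exists_extend {A B : Type} [CommRing A] [CommRing B] [IsDomain B] [Algebra A B]
    [Algebra.IsIntegral A B] (f : A →+* ℂ)
    (hf : RingHom.ker (algebraMap A B) ≤ RingHom.ker f) :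
    ∃ φ : B →+* ℂ, φ.comp (algebraMap A B) = f := by
  have hp : (RingHom.ker f).IsPrime := RingHom.ker_isPrime f
  obtain ⟨Q, hQ, hQP⟩ :=
    Ideal.exists_ideal_over_prime_of_isIntegral_of_isDomain (S := B) (RingHom.ker f) hf
  have : Q.LiesOver (RingHom.ker f) := ⟨hQP.symm⟩
  let : Algebra (A ⧸ RingHom.ker f) ℂ := (RingHom.kerLift f).toAlgebra
  have : FaithfulSMul (A ⧸ RingHom.ker f) ℂ :=
    (faithfulSMul_iff_algebraMap_injective _ _).2 (RingHom.kerLift_injective f)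
  have : Module.IsTorsionFree (A ⧸ RingHom.ker f) ℂ :=
    Module.isTorsionFree_iff_faithfulSMul.2 inferInstance
  have : Module.IsTorsionFree (A ⧸ RingHom.ker f) (B ⧸ Q) :=
    Module.isTorsionFree_iff_faithfulSMul.2 inferInstance
  have : Algebra.IsIntegral (A ⧸ RingHom.ker f) (B ⧸ Q) := inferInstance
  let g : (B ⧸ Q) →ₐ[A ⧸ RingHom.ker f] ℂ := IsAlgClosed.lift
  refine ⟨g.toRingHom.comp (Ideal.Quotient.mk Q), ?_⟩
  ext a
  have h1 : (Ideal.Quotient.mk Q) (algebraMap A B a) =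
      algebraMap (A ⧸ RingHom.ker f) (B ⧸ Q) (Ideal.Quotient.mk _ a) := rfl
  have h2 : g (algebraMap (A ⧸ RingHom.ker f) (B ⧸ Q) (Ideal.Quotient.mk _ a)) =
      algebraMap (A ⧸ RingHom.ker f) ℂ (Ideal.Quotient.mk _ a) := g.commutes _
  simp only [RingHom.coe_comp, Function.comp_apply]
  rw [h1]
  exact h2

/-- Every root of the specialised minimal polynomial is a value. -/
theorem exists_hom_root {R B : Type} [CommRing R] [IsDomain R] [IsIntegrallyClosed R]
    [CommRing B] [IsDomain B] [Algebra R B] [Module.IsTorsionFree R B] [Algebra.IsIntegral R B]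
    (ψ : R →+* ℂ) (g : B) (α : ℂ) (hα : (minpoly R g).eval₂ ψ α = 0) :
    ∃ φ : B →+* ℂ, φ.comp (algebraMap R B) = ψ ∧ φ g = α := by
  have hg : IsIntegral R g := Algebra.IsIntegral.isIntegral g
  let e := minpoly.equivAdjoin hg
  let f : Algebra.adjoin R ({g} : Set B) →+* ℂ :=
    (AdjoinRoot.lift ψ α hα).comp (e.symm : _ ≃+* _).toRingHom
  have : Algebra.IsIntegral (Algebra.adjoin R ({g} : Set B)) B := Algebra.IsIntegral.tower_top R
  have hker : RingHom.ker (algebraMap (Algebra.adjoin R ({g} : Set B)) B) ≤ RingHom.ker f := by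
    have : RingHom.ker (algebraMap (Algebra.adjoin R ({g} : Set B)) B) = ⊥ := by
      rw [← RingHom.injective_iff_ker_eq_bot]
      exact Subtype.coe_injective
    rw [this]
    exact bot_le
  obtain ⟨φ, hφ⟩ := exists_extend f hker
  have hroot : e.symm ⟨g, Algebra.self_mem_adjoin_singleton R g⟩ =
      AdjoinRoot.root (minpoly R g) := by
    rw [AlgEquiv.symm_apply_eq]
    apply Subtype.ext
    simp [e, AdjoinRoot.Minpoly.toAdjoin]
  refine ⟨φ, ?_, ?_⟩
  · ext r
    have h1 : algebraMap R B r =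
      algebraMap (Algebra.adjoin R ({g} : Set B)) B (algebraMap R _ r) := rfl
    have h2 : φ (algebraMap (Algebra.adjoin R ({g} : Set B)) B (algebraMap R _ r)) =
      f (algebraMap R _ r) := RingHom.congr_fun hφ _
    rw [RingHom.comp_apply, h1, h2]
    change AdjoinRoot.lift ψ α hα (e.symm (algebraMap R _ r)) = ψ r
    rw [AlgEquiv.commutes]
    exact AdjoinRoot.lift_of hα
  · have h2 : φ (algebraMap (Algebra.adjoin R ({g} : Set B)) B
        ⟨g, Algebra.self_mem_adjoin_singleton R g⟩) =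
      f ⟨g, Algebra.self_mem_adjoin_singleton R g⟩ := RingHom.congr_fun hφ _
    change φ g = f _ at h2
    rw [h2]
    change AdjoinRoot.lift ψ α hα (e.symm _) = α
    rw [hroot]
    exact AdjoinRoot.lift_root hα

theorem pow_lt_prod_norm (ε : ℝ) (hε : 0 ≤ ε) (s : Multiset ℂ) (hs : s ≠ 0)
    (h : ∀ x ∈ s, ε < ‖x‖) : ε ^ s.card < ‖s.prod‖ := by
  induction s using Multiset.induction with
  | empty => exact absurd rfl hs
  | cons a s ih =>
    by_cases h0 : s = 0
    · subst h0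
      simpa using h a (by simp)
    · have h1 := ih h0 (fun x hx => h x (Multiset.mem_cons_of_mem hx))
      have h2 := h a (Multiset.mem_cons_self a s)
      rw [Multiset.card_cons, pow_succ', Multiset.prod_cons, norm_mul]
      have h3 : 0 ≤ ε ^ s.card := pow_nonneg hε _
      nlinarith

theorem exists_small_root (p : ℂ[X]) (hp : p.Monic) (hd : 0 < p.natDegree) (ε : ℝ) (hε : 0 ≤ ε)
    (h : ‖p.coeff 0‖ ≤ ε ^ p.natDegree) : ∃ α, p.eval α = 0 ∧ ‖α‖ ≤ ε := by
  by_contra hcon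
  push Not at hcon
  have hs : p.Splits := IsAlgClosed.splits p
  have h1 := hs.coeff_zero_eq_prod_roots_of_monic hp
  have hcard : p.roots.card = p.natDegree := hs.natDegree_eq_card_roots.symm
  have hne : p.roots ≠ 0 := by
    intro h0
    rw [h0] at hcard
    simp at hcard
    omega
  have h2 := pow_lt_prod_norm ε hε p.roots hne (fun x hx => hcon x (by
    rw [mem_roots hp.ne_zero] at hx
    exact hx))
  rw [hcard] at h2
  rw [h1, norm_mul, norm_pow, norm_neg, norm_one, one_pow, one_mul] at h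
  linarith

/-- Lipschitz bound for the specialisation of a Laurent polynomial near a zero. -/
theorem lip {k : Type} [Field k] (β : k →+* ℂ) (u₀ : ℂˣ) (a : k[T;T⁻¹])
    (ha : LaurentPolynomial.eval₂ β u₀ a = 0) :
    ∃ M : ℝ, 1 ≤ M ∧ ∀ u : ℂˣ, ‖(u : ℂ) - u₀‖ < ‖(u₀ : ℂ)‖ / 2 →
      ‖LaurentPolynomial.eval₂ β u a‖ ≤ M * ‖(u : ℂ) - u₀‖ := by
  obtain ⟨n, f', hf'⟩ := LaurentPolynomial.exists_T_pow a
  have key : ∀ u : ℂˣ, (f'.map β).eval (u : ℂ) = LaurentPolynomial.eval₂ β u a * (u : ℂ) ^ n := by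
    intro u
    have := congrArg (LaurentPolynomial.eval₂ β u) hf'
    rw [LaurentPolynomial.eval₂_toLaurent, map_mul, LaurentPolynomial.eval₂_T_n] at this
    rw [eval_map, this]
  have hroot : (f'.map β).IsRoot (u₀ : ℂ) := by
    rw [IsRoot, key u₀, ha, zero_mul]
  obtain ⟨Q, hQ⟩ := dvd_iff_isRoot.2 hroot
  have hpos : 0 < ‖(u₀ : ℂ)‖ := norm_pos_iff.2 u₀.ne_zero
  have hcont : ContinuousOn (fun z : ℂ => Q.eval z / z ^ n)
      (Metric.closedBall (u₀ : ℂ) (‖(u₀ : ℂ)‖ / 2)) := by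
    apply ContinuousOn.div
    · exact Q.continuous.continuousOn
    · exact (continuous_pow n).continuousOn
    · intro z hz
      apply pow_ne_zero
      rintro rfl
      rw [Metric.mem_closedBall, dist_zero_left] at hz
      linarith
  obtain ⟨M, hM⟩ := (isCompact_closedBall (u₀ : ℂ) (‖(u₀ : ℂ)‖ / 2)).exists_bound_of_continuousOn
    hcont
  refine ⟨max M 1, le_max_right _ _, ?_⟩
  intro u hu
  have hmem : (u : ℂ) ∈ Metric.closedBall (u₀ : ℂ) (‖(u₀ : ℂ)‖ / 2) := by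
    rw [Metric.mem_closedBall, dist_eq_norm]
    exact hu.le
  have h1 := hM _ hmem
  have hun : (u : ℂ) ^ n ≠ 0 := pow_ne_zero _ u.ne_zero
  have h2 : LaurentPolynomial.eval₂ β u a = ((u : ℂ) - u₀) * (Q.eval (u : ℂ) / (u : ℂ) ^ n) := by
    have h3 := key u
    rw [hQ, eval_mul, eval_sub, eval_X, eval_C] at h3
    field_simp
    rw [h3]
  rw [h2, norm_mul, mul_comm]
  exact mul_le_mul_of_nonneg_right (h1.trans (le_max_left _ _)) (norm_nonneg _)

/-- The number of homomorphisms over a given one is bounded. -/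
theorem finite_homs (R B : Type) [CommRing R] [CommRing B] [Algebra R B] [Module.Finite R B] :
    ∃ N : ℕ, ∀ ψ : R →+* ℂ, ∀ F : Fin (N + 1) → (B →+* ℂ),
      (∀ j, (F j).comp (algebraMap R B) = ψ) → ∃ i j, i < j ∧ F i = F j := by
  classical
  obtain ⟨S, hS⟩ := (Module.Finite.fg_top : (⊤ : Submodule R B).FG)
  refine ⟨∏ x : S, (minpoly R (x : B)).natDegree, ?_⟩
  intro ψ F hF
  let pf : Finset (S → ℂ) :=
    Fintype.piFinset (fun x : S => ((minpoly R (x : B)).map ψ).roots.toFinset)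
  have hcard : pf.card ≤ ∏ x : S, (minpoly R (x : B)).natDegree := by
    rw [Fintype.card_piFinset]
    apply Finset.prod_le_prod' 
    intro x _
    calc ((minpoly R (x : B)).map ψ).roots.toFinset.card
        ≤ ((minpoly R (x : B)).map ψ).roots.card := Multiset.toFinset_card_le _
      _ ≤ ((minpoly R (x : B)).map ψ).natDegree := card_roots' _
      _ ≤ (minpoly R (x : B)).natDegree := natDegree_map_le
  have hmaps : ∀ j ∈ (Finset.univ : Finset (Fin _)), (fun x : S => F j (x : B)) ∈ pf := by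
    intro j _
    rw [Fintype.mem_piFinset]
    intro x
    have hint : IsIntegral R (x : B) := Algebra.IsIntegral.isIntegral _
    rw [Multiset.mem_toFinset, mem_roots ((minpoly.monic hint).map ψ).ne_zero, IsRoot, eval_map]
    have h1 := congrArg (F j) (minpoly.aeval R (x : B))
    rw [map_zero, aeval_def, hom_eval₂, hF j] at h1
    exact h1
  obtain ⟨i, _, j, _, hij, heq⟩ :=
    Finset.exists_ne_map_eq_of_card_lt_of_maps_to
      (s := (Finset.univ : Finset (Fin ((∏ x : S, (minpoly R (x : B)).natDegree) + 1))))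
      (t := pf) (by rw [Finset.card_univ, Fintype.card_fin]; omega) hmaps
  have hFeq : F i = F j := by
    ext b
    have hb : b ∈ Submodule.span R (S : Set B) := by rw [hS]; trivial
    induction hb using Submodule.span_induction with
    | mem x hx => exact congrFun heq ⟨x, hx⟩
    | zero => simp
    | add x y _ _ hx hy => rw [map_add, map_add, hx, hy]
    | smul r x _ hx =>
      rw [Algebra.smul_def, map_mul, map_mul, hx]
      have h1 : F i (algebraMap R B r) = F j (algebraMap R B r) := by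
        have h2 := RingHom.congr_fun (hF i) r
        have h3 := RingHom.congr_fun (hF j) r
        rw [RingHom.comp_apply] at h2 h3
        rw [h2, h3]
      rw [h1]
  rcases lt_or_gt_of_ne hij with h | h
  · exact ⟨i, j, h, hFeq⟩
  · exact ⟨j, i, h, hFeq.symm⟩

theorem laurent_hom_ext {k : Type} [Field k] (f g : k[T;T⁻¹] →+* ℂ)
    (h1 : ∀ a, f (LaurentPolynomial.C a) = g (LaurentPolynomial.C a))
    (h2 : f (LaurentPolynomial.T 1) = g (LaurentPolynomial.T 1)) : f = g := by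
  apply IsLocalization.ringHom_ext (Submonoid.powers (X : k[X]))
  apply Polynomial.ringHom_ext
  · intro a
    simpa using h1 a
  · simpa using h2

section
variable {k : Type} [Field k] {B : Type} [CommRing B] [IsDomain B] [Algebra k[T;T⁻¹] B]
  [Module.Finite k[T;T⁻¹] B] [FaithfulSMul k[T;T⁻¹] B]

theorem single (b : B →+* ℂ) (β : k →+* ℂ) (u₀ : ℂˣ)
    (hb : b.comp (algebraMap k[T;T⁻¹] B) = LaurentPolynomial.eval₂ β u₀) (g : B) (hg : b g = 0) :
    ∃ A c ρ : ℝ, 0 < A ∧ 0 < c ∧ 0 < ρ ∧ ρ ≤ 1 ∧ ∀ u : ℂˣ, ‖(u : ℂ) - u₀‖ < ρ →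
      ∃ φ : B →+* ℂ, φ.comp (algebraMap k[T;T⁻¹] B) = LaurentPolynomial.eval₂ β u ∧
        ‖φ g‖ ≤ A * ‖(u : ℂ) - u₀‖ ^ c := by
  have hdom : IsDomain k[T;T⁻¹] := inferInstance
  have hic : IsIntegrallyClosed k[T;T⁻¹] :=
    isIntegrallyClosed_of_isLocalization (R := k[X]) _ (Submonoid.powers (X : k[X]))
      (powers_le_nonZeroDivisors_of_noZeroDivisors X_ne_zero)
  have htf : Module.IsTorsionFree k[T;T⁻¹] B := Module.isTorsionFree_iff_faithfulSMul.2 inferInstance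
  have hint : IsIntegral k[T;T⁻¹] g := Algebra.IsIntegral.isIntegral g
  have hmon := minpoly.monic hint
  have hn : 0 < (minpoly k[T;T⁻¹] g).natDegree := minpoly.natDegree_pos hint
  have h0 : LaurentPolynomial.eval₂ β u₀ ((minpoly k[T;T⁻¹] g).coeff 0) = 0 := by
    have h1 := congrArg b (minpoly.aeval k[T;T⁻¹] g)
    rw [map_zero, aeval_def, hom_eval₂, hb, hg, eval₂_at_zero] at h1
    exact h1
  obtain ⟨M, hM1, hM⟩ := lip β u₀ _ h0
  have hpos : 0 < ‖(u₀ : ℂ)‖ := norm_pos_iff.2 u₀.ne_zero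
  set n := (minpoly k[T;T⁻¹] g).natDegree with hndef
  refine ⟨M ^ ((n : ℝ)⁻¹), (n : ℝ)⁻¹, min 1 (‖(u₀ : ℂ)‖ / 2), by positivity, by positivity,
    by positivity, min_le_left _ _, ?_⟩
  intro u hu
  have hu' := hM u (hu.trans_le (min_le_right _ _))
  set d := ‖(u : ℂ) - u₀‖ with hd
  have hd0 : 0 ≤ d := norm_nonneg _
  have hmon' : ((minpoly k[T;T⁻¹] g).map (LaurentPolynomial.eval₂ β u)).Monic := hmon.map _
  have hdeg : ((minpoly k[T;T⁻¹] g).map (LaurentPolynomial.eval₂ β u)).natDegree = n :=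
    hmon.natDegree_map _
  obtain ⟨α, hα, hα2⟩ := exists_small_root _ hmon' (by rw [hdeg]; exact hn)
    ((M * d) ^ ((n : ℝ)⁻¹)) (by positivity) (by
      rw [hdeg, Real.rpow_inv_natCast_pow (by positivity) hn.ne', coeff_map]
      exact hu')
  obtain ⟨φ, hφ1, hφ2⟩ := exists_hom_root (LaurentPolynomial.eval₂ β u) g α (by
    rw [eval_map] at hα; exact hα)
  refine ⟨φ, hφ1, ?_⟩
  rw [hφ2]
  rw [Real.mul_rpow (by positivity) hd0] at hα2
  exact hα2

theorem multi (b : B →+* ℂ) (β : k →+* ℂ) (u₀ : ℂˣ)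
    (hb : b.comp (algebraMap k[T;T⁻¹] B) = LaurentPolynomial.eval₂ β u₀) (n : ℕ) :
    ∀ l : List B, l.length = n + 1 → (∀ g ∈ l, b g = 0) →
    ∃ A c ρ : ℝ, 0 < A ∧ 0 < c ∧ 0 < ρ ∧ ρ ≤ 1 ∧ ∀ u : ℂˣ, ‖(u : ℂ) - u₀‖ < ρ →
      ∃ φ : B →+* ℂ, φ.comp (algebraMap k[T;T⁻¹] B) = LaurentPolynomial.eval₂ β u ∧
        ∀ g ∈ l, ‖φ g‖ ≤ A * ‖(u : ℂ) - u₀‖ ^ c := by
  induction n with
  | zero =>
    intro l hl hz
    obtain ⟨a, rfl⟩ := List.length_eq_one_iff.1 hl
    obtain ⟨A, c, ρ, h1, h2, h3, h4, h5⟩ := single b β u₀ hb a (hz a (by simp))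
    refine ⟨A, c, ρ, h1, h2, h3, h4, ?_⟩
    intro u hu
    obtain ⟨φ, h6, h7⟩ := h5 u hu
    refine ⟨φ, h6, ?_⟩
    intro g hg
    rw [List.mem_singleton] at hg
    rw [hg]
    exact h7
  | succ n ih =>
    intro l hl hz
    obtain ⟨N, hN⟩ := finite_homs k[T;T⁻¹] B
    match l, hl, hz with
    | [], hl, _ => simp at hl
    | [_], hl, _ => simp at hl
    | a :: a' :: l'', hl, hz =>
    have hlen : l''.length = n := by simpa using hl
    have hstep : ∀ j : Fin (N + 1), ∃ A c ρ : ℝ, 0 < A ∧ 0 < c ∧ 0 < ρ ∧ ρ ≤ 1 ∧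
        ∀ u : ℂˣ, ‖(u : ℂ) - u₀‖ < ρ →
        ∃ φ : B →+* ℂ, φ.comp (algebraMap k[T;T⁻¹] B) = LaurentPolynomial.eval₂ β u ∧
        ∀ g ∈ (a + ((j : ℕ) : B) * a') :: l'', ‖φ g‖ ≤ A * ‖(u : ℂ) - u₀‖ ^ c := by
      intro j
      apply ih
      · simp [hlen]
      · intro g hg
        rcases List.mem_cons.1 hg with h | h
        · rw [h, map_add, map_mul, hz a (by simp), hz a' (by simp)]
          simp
        · exact hz g (by simp [h])
    choose A c ρ hA hc hρ hρ1 hφ using hstep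
    have hne : (Finset.univ : Finset (Fin (N + 1))).Nonempty := Finset.univ_nonempty
    set A' := Finset.univ.sup' hne A with hA'
    set c' := Finset.univ.inf' hne c with hc'
    set ρ' := Finset.univ.inf' hne ρ with hρ'
    have hA'le : ∀ j, A j ≤ A' := fun j => Finset.le_sup' A (Finset.mem_univ j)
    have hc'le : ∀ j, c' ≤ c j := fun j => Finset.inf'_le c (Finset.mem_univ j)
    have hρ'le : ∀ j, ρ' ≤ ρ j := fun j => Finset.inf'_le ρ (Finset.mem_univ j)
    have hA'pos : 0 < A' := (hA 0).trans_le (hA'le 0)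
    have hc'pos : 0 < c' := (Finset.lt_inf'_iff hne).2 (fun j _ => hc j)
    have hρ'pos : 0 < ρ' := (Finset.lt_inf'_iff hne).2 (fun j _ => hρ j)
    refine ⟨A' * (2 * N + 3), c', ρ', by positivity, hc'pos, hρ'pos, (hρ'le 0).trans (hρ1 0), ?_⟩
    intro u hu
    set d := ‖(u : ℂ) - u₀‖ with hd
    have hd0 : 0 ≤ d := norm_nonneg _
    have hd1 : d ≤ 1 := hu.le.trans ((hρ'le 0).trans (hρ1 0))
    have hφu : ∀ j : Fin (N + 1), ∃ φ : B →+* ℂ, φ.comp (algebraMap k[T;T⁻¹] B) = LaurentPolynomial.eval₂ β u ∧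
        ∀ g ∈ (a + ((j : ℕ) : B) * a') :: l'', ‖φ g‖ ≤ A' * d ^ c' := by
      intro j
      obtain ⟨φ, h1, h2⟩ := hφ j u (hu.trans_le (hρ'le j))
      refine ⟨φ, h1, fun g hg => (h2 g hg).trans ?_⟩
      have h3 : d ^ c j ≤ d ^ c' :=
        Real.rpow_le_rpow_of_exponent_ge' hd0 hd1 hc'pos.le (hc'le j)
      have h4 : 0 ≤ d ^ c j := Real.rpow_nonneg hd0 _
      exact mul_le_mul (hA'le j) h3 h4 hA'pos.le
    choose F hF1 hF2 using fun j : Fin (N + 1) => hφu j
    obtain ⟨i, j, hij, hFij⟩ := hN _ F hF1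
    have hx0 : 0 ≤ A' * d ^ c' := mul_nonneg hA'pos.le (Real.rpow_nonneg hd0 _)
    have e1 : ‖F i a + (i : ℕ) * F i a'‖ ≤ A' * d ^ c' := by
      have := hF2 i (a + ((i : ℕ) : B) * a') (by simp)
      simpa using this
    have e2 : ‖F i a + (j : ℕ) * F i a'‖ ≤ A' * d ^ c' := by
      have := hF2 j (a + ((j : ℕ) : B) * a') (by simp)
      rw [← hFij] at this
      simpa using this
    have hij' : (1 : ℝ) ≤ (j : ℕ) - (i : ℕ) := by
      have : (i : ℕ) + 1 ≤ (j : ℕ) := hij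
      have h2 : ((i : ℕ) : ℝ) + 1 ≤ ((j : ℕ) : ℝ) := by exact_mod_cast this
      linarith
    have e3 : ‖F i a'‖ ≤ 2 * (A' * d ^ c') := by
      have h1 : (((j : ℕ) : ℂ) - ((i : ℕ) : ℂ)) * F i a' =
        (F i a + (j : ℕ) * F i a') - (F i a + (i : ℕ) * F i a') := by ring
      have h2 : ‖(((j : ℕ) : ℂ) - ((i : ℕ) : ℂ)) * F i a'‖ ≤ 2 * (A' * d ^ c') := by
        rw [h1]
        refine (norm_sub_le _ _).trans ?_
        linarith
      have h3 : ‖((j : ℕ) : ℂ) - ((i : ℕ) : ℂ)‖ = ((j : ℕ) : ℝ) - ((i : ℕ) : ℝ) := by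
        have : ((j : ℕ) : ℂ) - ((i : ℕ) : ℂ) = (((j : ℕ) : ℝ) - ((i : ℕ) : ℝ) : ℝ) := by
          push_cast; rfl
        rw [this, Complex.norm_real, Real.norm_eq_abs, abs_of_nonneg (by linarith)]
      rw [norm_mul, h3] at h2
      have h4 : 0 ≤ ‖F i a'‖ := norm_nonneg _
      nlinarith
    have hiN : ((i : ℕ) : ℝ) ≤ N := by
      have := i.isLt
      exact_mod_cast Nat.lt_succ_iff.1 this
    have e4 : ‖F i a‖ ≤ A' * d ^ c' * (2 * N + 1) := by
      have h1 : F i a = (F i a + (i : ℕ) * F i a') - (i : ℕ) * F i a' := by ring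
      rw [h1]
      refine (norm_sub_le _ _).trans ?_
      rw [norm_mul, Complex.norm_natCast]
      have h4 : 0 ≤ ‖F i a'‖ := norm_nonneg _
      have h5 : (0 : ℝ) ≤ ((i : ℕ) : ℝ) := Nat.cast_nonneg _
      have h6 : ((i : ℕ) : ℝ) * ‖F i a'‖ ≤ N * (2 * (A' * d ^ c')) :=
        mul_le_mul hiN e3 h4 (Nat.cast_nonneg _)
      linarith
    refine ⟨F i, hF1 i, ?_⟩
    have hN0 : (0 : ℝ) ≤ N := Nat.cast_nonneg _
    intro g hg
    rcases List.mem_cons.1 hg with h | h
    · rw [h]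
      nlinarith
    · rcases List.mem_cons.1 h with h | h
      · rw [h]
        nlinarith
      · have := hF2 i g (by simp [h])
        nlinarith

end

/-- Module M4. -/
theorem stM4 : ∀ (k : Type) [Field k] [NumberField k] (B : Type) [CommRing B]
  [Algebra k[T;T⁻¹] B] [Module.Finite k[T;T⁻¹] B] [FaithfulSMul k[T;T⁻¹] B] [IsDedekindDomain B]
  (b : B →+* ℂ) (s : Finset B), (∀ g ∈ s, b g = 0) →
  ∃ A c ρ : ℝ, 0 < A ∧ 0 < c ∧ 0 < ρ ∧ ∀ u : ℂ,
    ‖u - b (algebraMap k[T;T⁻¹] B (LaurentPolynomial.T 1))‖ < ρ →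
    ∃ φ : B →+* ℂ,
      (∀ a : k, φ (algebraMap k[T;T⁻¹] B (LaurentPolynomial.C a)) =
        b (algebraMap k[T;T⁻¹] B (LaurentPolynomial.C a))) ∧
      φ (algebraMap k[T;T⁻¹] B (LaurentPolynomial.T 1)) = u ∧
      ∀ g ∈ s, ‖φ g‖ ≤ A * ‖u - b (algebraMap k[T;T⁻¹] B (LaurentPolynomial.T 1))‖ ^ c := by
  intro k _ _ B _ _ _ _ _ b s hs
  let β : k →+* ℂ := (b.comp (algebraMap k[T;T⁻¹] B)).comp LaurentPolynomial.C
  have hu : IsUnit (b (algebraMap k[T;T⁻¹] B (LaurentPolynomial.T 1))) :=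
    ((LaurentPolynomial.isUnit_T 1).map (algebraMap k[T;T⁻¹] B)).map b
  obtain ⟨u₀, hu₀⟩ := hu
  have hb : b.comp (algebraMap k[T;T⁻¹] B) = LaurentPolynomial.eval₂ β u₀ := by
    apply laurent_hom_ext
    · intro a
      rw [LaurentPolynomial.eval₂_C]
      rfl
    · rw [LaurentPolynomial.eval₂_T, zpow_one, hu₀]
      rfl
  obtain ⟨A, c, ρ, hA, hc, hρ, -, hφ⟩ := multi b β u₀ hb s.toList.length (0 :: s.toList) rfl (by
    intro g hg
    rcases List.mem_cons.1 hg with h | h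
    · rw [h, map_zero]
    · exact hs g (Finset.mem_toList.1 h))
  refine ⟨A, c, min ρ ‖(u₀ : ℂ)‖, hA, hc, lt_min hρ (norm_pos_iff.2 u₀.ne_zero), ?_⟩
  intro u hu
  rw [← hu₀] at hu ⊢
  have hune : u ≠ 0 := by
    rintro rfl
    have := hu.trans_le (min_le_right _ _)
    rw [zero_sub, norm_neg] at this
    exact lt_irrefl _ this
  obtain ⟨φ, h1, h2⟩ := hφ (Units.mk0 u hune) (hu.trans_le (min_le_left _ _))
  refine ⟨φ, ?_, ?_, ?_⟩
  · intro a
    have h3 := RingHom.congr_fun h1 (LaurentPolynomial.C a)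
    rw [LaurentPolynomial.eval₂_C] at h3
    exact h3
  · have h3 := RingHom.congr_fun h1 (LaurentPolynomial.T 1)
    rw [LaurentPolynomial.eval₂_T, zpow_one] at h3
    exact h3
  · intro g hg
    exact h2 g (by simp [hg])

theorem M4 : KS6_16.VJ.StM4 := stM4

end Pool.Agent.KS6_58.VJ
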